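import Pool.Agent.Y499.HC.ProjScale
import Pool.Agent.Y502.HC.Frame
import Pool.Agent.Y888.HC.Det
import Pool.Agent.Y331.HC.Pos
import Pool.Agent.Y64.HC.Ptw
import Pool.Agent.Y454.HC.Avge
import Pool.Agent.Y908.HC.Inv2

/-! # The systolic inequality for metrics on `RP^(d+1)` in Fermi coordinates of a hyperplane

Let `d ≥ 2`. The projective space `RP^(d+1)` without a point is the quotient of `(-L, L) × S^d` by
`(s, x) ↦ (-s, -x)`; the standard metric is `ds² + cos² s g_round`, `L = π/2`. For every metric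
`ds² + k(s, x)² g_round`, where `k` is an arbitrary positive function of both variables, with
`2 L ≥ ℓ` and for which noncontractible curves have length at least `ℓ`, the volume is at least
`(ℓ/π)^(d+1)` times that of the standard metric, with equality only if the metric is homothetic to
the standard metric. For metrics `ds² + g_s` with `K`-quasiconformal slices the inequality holds up
to the factor `K`. -/

set_option autoImplicit false

open Real Set MeasureTheory Metric
open scoped ENNReal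

namespace Pool.Agent.Results.MP_b75b84_gt.FermiProjective

open Pool.Agent.Y499.HC Pool.Agent.Y499.HR Pool.Agent.Y499.HP

theorem result (d : ℕ) (hd : 2 ≤ d) :
    (∀ (L ℓ : ℝ) (k : ℝ → EuclideanSpace ℝ (Fin (d + 1)) → ℝ), 0 < ℓ → ℓ ≤ 2 * L →
      IsSlice d L k → SysAtLeast d L ℓ k →
      ENNReal.ofReal ((ℓ / π) ^ (d + 1)) * hemiCollar d (π / 2) ≤ projVol d L k ∧
      (projVol d L k = ENNReal.ofReal ((ℓ / π) ^ (d + 1)) * hemiCollar d (π / 2) ↔
        L = ℓ / 2 ∧ ∀ s ∈ Ioo (-L) L, ∀ x ∈ sphere (0 : EuclideanSpace ℝ (Fin (d + 1))) 1,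
          k s x = ℓ / π * Real.cos (π * s / ℓ))) ∧
    (∀ (L : ℝ) (m : Met d), π / 2 ≤ L → Good L m → Fermi L m → NonShort L m →
      ∀ K : ℝ, 0 ≤ K →
      (∀ s ∈ Ioo 0 L, ∀ x : sphere (0 : EuclideanSpace ℝ (Fin (d + 1))) 1,
        (trTan (m.g s x) x / d) ^ ((d : ℝ) / 2) ≤ K * √(detTan (m.g s x) x)) →
      hemiCollar d (π / 2) ≤ ENNReal.ofReal K * vol L m) := by
  have hF := Pool.Agent.Y502.HC.t_FRAME
  have hP := Pool.Agent.Y64.HC.t_PTW
  have hA := Pool.Agent.Y454.HC.t_AVGE
  have hI := Pool.Agent.Y908.HC.t_INV2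
  have hO := Pool.Agent.Y331.HC.t_POS
  have hD := Pool.Agent.Y888.HC.t_DET
  exact ⟨fun L ℓ k hℓ hL hk hs => proj_ratio hF hP hA hI hO hD hd hℓ hL hk hs,
    fun L m hL hm _ hS K hK hq => proj_qc hF hP hA hI hd hL hm hS hK hq⟩

end Pool.Agent.Results.MP_b75b84_gt.FermiProjective
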